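import Mathlib
import Pool.Agent.Y856.PD.D
import Pool.Agent.Helper270_FK.Dyn

set_option autoImplicit false

/-!
# Farkas' map: reduction to the `3x+1` function, and positive density of the eventually periodic integers

On the odd integers `n = 2 m + 1` the map `V` is the `3x+1` function `T` in the variable `m`, and `V` halves
the even integers.  Hence `V` is eventually periodic at every positive integer if and only if `T` is (Q1 is
equivalent to the absence of unbounded `3x+1` trajectories), the cycles of `V` are those of `T`, and every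
`V`-invariant set of positive integers has a natural density.  The integers whose orbit ends in the cycle
`{3, 5}` have the same natural density as the predecessor set of `1` for `T`, and it is positive.

The density of `T`-invariant sets and the positivity are those of the starting files `Y856/PD` and `W38/UPD`.
-/

namespace Pool.Agent.Results.MP_2efb47_nt.ConjugateToThreeXPlusOne

open Filter Topology

/-- Farkas' map `V` -/
def V (n : ℕ) : ℕ :=
  if n % 2 = 0 then n / 2 else if n % 4 = 1 then (n + 1) / 2 else (3 * n + 1) / 2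

/-- the `3x+1` function `T` -/
def T (m : ℕ) : ℕ := if m % 2 = 0 then m / 2 else (3 * m + 1) / 2

/-- the orbit of `x` under `f` is eventually periodic -/
def EventuallyPeriodic (f : ℕ → ℕ) (x : ℕ) : Prop := ∃ j p : ℕ, 0 < p ∧ f^[j + p] x = f^[j] x

/-- the set of the positive integers with the property `P` has natural density `d` -/
def HasDensity (P : ℕ → Prop) (d : ℝ) : Prop :=
  Tendsto (fun N : ℕ => ({n : ℕ | 0 < n ∧ n ≤ N ∧ P n}.ncard : ℝ) / N) atTop (𝓝 d)

theorem V_eq : V = Pool.Agent.Helper270_FK.V := rfl
theorem T_eq : T = Pool.Agent.Helper270_FK.T := rfl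

theorem exists_density {S : ℕ → Prop} (hS : ∀ n, 0 < n → (S n ↔ S (T n))) : ∃ d, HasDensity S d := by
  have h : Pool.Agent.Y856.PD.Ev 0 S := hS
  obtain ⟨d, hd⟩ := h.density
  exact ⟨d, hd⟩

/-- **Reduction of Farkas' map to the `3x+1` function; densities.**

1. `V (2m+1) = 2 T(m) + 1` and `V (2n) = n`.
2. The orbit of `2 ^ k (2m+1)` under `V` is eventually periodic if and only if that of `m` under `T` is;
   hence Q1 holds if and only if every positive integer has an eventually periodic orbit under `T`.
3. The points of period `p` of `V` are the numbers `2m+1`, `m` a point of period `p` of `T`; every orbit of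
   `V` ends in `{1}` or `{3, 5}` if and only if every positive integer iterates to `1` under `T`.
4. The positive integers with an eventually periodic orbit under `V` have a natural density `d`, the same as
   for `T`, those whose orbit reaches `3` have a natural density `e`, the same as the predecessors of `1`
   under `T`, and `0 < e ≤ d`.
5. Every property of positive integers which is invariant under `V` has a natural density. -/
theorem result :
    ((∀ m, V (2 * m + 1) = 2 * T m + 1) ∧ ∀ n, V (2 * n) = n) ∧
    ((∀ k m, EventuallyPeriodic V (2 ^ k * (2 * m + 1)) ↔ EventuallyPeriodic T m) ∧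
      ((∀ n, 0 < n → EventuallyPeriodic V n) ↔ ∀ m, 0 < m → EventuallyPeriodic T m)) ∧
    ((∀ n p, 0 < n → 0 < p → (V^[p] n = n ↔ ∃ m, n = 2 * m + 1 ∧ T^[p] m = m)) ∧
      ((∀ n, 0 < n → ∃ j, V^[j] n = 1 ∨ V^[j] n = 3) ↔ ∀ m, 0 < m → ∃ j, T^[j] m = 1)) ∧
    (∃ d e : ℝ, 0 < e ∧ e ≤ d ∧
      HasDensity (fun n => EventuallyPeriodic V n) d ∧
      HasDensity (fun m => EventuallyPeriodic T m) d ∧
      HasDensity (fun n => ∃ j, V^[j] n = 3) e ∧
      HasDensity (fun m => ∃ j, T^[j] m = 1) e) ∧
    (∀ Q : ℕ → Prop, (∀ n, 0 < n → (Q n ↔ Q (V n))) → ∃ d, HasDensity Q d) := by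
  refine ⟨⟨Pool.Agent.Helper270_FK.V_odd, Pool.Agent.Helper270_FK.V_two⟩,
    ⟨Pool.Agent.Helper270_FK.EP_V, Pool.Agent.Helper270_FK.all_EP⟩,
    ⟨fun n p hn hp => Pool.Agent.Helper270_FK.periodic_iff hn p hp,
      Pool.Agent.Helper270_FK.all_reach⟩, ?_, ?_⟩
  · obtain ⟨c, hc, hlow⟩ := Pool.Agent.Y856.PD.dens_lower
    have h1 : 0 < Pool.Agent.Y856.PD.dens 1 := by
      have := hlow 1 one_pos (by norm_num)
      rw [Nat.cast_one, div_one] at this
      linarith
    have hT1 : HasDensity (fun m => ∃ j, T^[j] m = 1) (Pool.Agent.Y856.PD.dens 1) :=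
      Pool.Agent.Y856.PD.dens_spec 1
    obtain ⟨d, hd⟩ := exists_density (S := fun m => EventuallyPeriodic T m)
      (fun n _ => Pool.Agent.Helper270_FK.EP_next T n)
    have hV3 : HasDensity (fun n => ∃ j, V^[j] n = 3) (Pool.Agent.Y856.PD.dens 1) := by
      refine Pool.Agent.Helper270_FK.density_transfer (S := fun m => ∃ j, T^[j] m = 1)
        (fun n _ => Pool.Agent.Helper270_FK.reach_two (by norm_num) n)
        (fun m _ => Pool.Agent.Helper270_FK.reach_odd m) hT1
    have hVE : HasDensity (fun n => EventuallyPeriodic V n) d := by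
      refine Pool.Agent.Helper270_FK.density_transfer (S := fun m => EventuallyPeriodic T m)
        (fun n _ => ?_) (fun m _ => Pool.Agent.Helper270_FK.EP_odd m) hd
      have h2 := Pool.Agent.Helper270_FK.EP_next Pool.Agent.Helper270_FK.V (2 * n)
      rw [Pool.Agent.Helper270_FK.V_two] at h2
      exact h2
    refine ⟨d, Pool.Agent.Y856.PD.dens 1, h1, ?_, hVE, hd, hV3, hT1⟩
    refine le_of_tendsto_of_tendsto' hV3 hVE fun N => ?_
    refine div_le_div_of_nonneg_right ?_ (Nat.cast_nonneg N)
    refine Nat.cast_le.2 (Set.ncard_le_ncard ?_ ((Set.finite_Iic N).subset fun n hn => hn.2.1))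
    rintro n ⟨g1, g2, j, g3⟩
    refine ⟨g1, g2, j, 2, by norm_num, ?_⟩
    rw [add_comm, Function.iterate_add_apply, g3]
    rfl
  · intro Q hQ
    obtain ⟨d, hd⟩ := exists_density (S := fun m => Q (2 * m + 1)) (fun m _ => by
      have := hQ (2 * m + 1) (by omega)
      rwa [V_eq, Pool.Agent.Helper270_FK.V_odd] at this)
    exact ⟨d, Pool.Agent.Helper270_FK.transfer hQ hd⟩

end Pool.Agent.Results.MP_2efb47_nt.ConjugateToThreeXPlusOne
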